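import Pool.Agent.H68.SF.LT2

/-! LCI: a code is constructible from itself (helper67) -/

open Ordinal Cardinal Order Set
open scoped ZFSet

namespace SF

private theorem lci_rank_left (x y : V) : x.rank < (ZFSet.pair x y).rank := by
  have h1 : x ∈ ({x} : V) := ZFSet.mem_singleton.2 rfl
  have h2 : ({x} : V) ∈ ZFSet.pair x y := by
    unfold ZFSet.pair
    exact ZFSet.mem_pair.2 (Or.inl rfl)
  exact lt_trans (ZFSet.rank_lt_of_mem h1) (ZFSet.rank_lt_of_mem h2)

private theorem lci_rank_right (x y : V) : y.rank < (ZFSet.pair x y).rank := by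
  have h1 : y ∈ ({x, y} : V) := ZFSet.mem_pair.2 (Or.inr rfl)
  have h2 : ({x, y} : V) ∈ ZFSet.pair x y := by
    unfold ZFSet.pair
    exact ZFSet.mem_pair.2 (Or.inr rfl)
  exact lt_trans (ZFSet.rank_lt_of_mem h1) (ZFSet.rank_lt_of_mem h2)

private theorem lci_opair {a A : V} (ha : a.IsTransitive) {α : Ordinal.{0}} {x y : V}
    (hx : x ∈ Lh a A α) (hy : y ∈ Lh a A α) : ZFSet.pair x y ∈ Lh a A (α + 1 + 1) := by
  have h1 : α < α + 1 := Order.lt_add_one_iff.2 le_rfl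
  have h2 : α + 1 < α + 1 + 1 := Order.lt_add_one_iff.2 le_rfl
  have h3 : ({x} : V) ∈ Lh a A (α + 1) := by
    have := pair_mem_Lh (A := A) ha h1 hx hx
    rwa [ZFSet.pair_eq_singleton] at this
  have h4 : ({x, y} : V) ∈ Lh a A (α + 1) := pair_mem_Lh (A := A) ha h1 hx hy
  exact pair_mem_Lh (A := A) ha h2 h3 h4

theorem pf_LCI : T_LCI := by
  intro A hA γ hγ
  have h0 : (∅ : V).IsTransitive := ZFSet.isTransitive_empty
  obtain ⟨δ, hδ⟩ : ∃ δ, δ = A.rank := ⟨_, rfl⟩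
  have hsub : A ⊆ Lh ∅ A (δ + 1 + 1 + 1 + 1) := by
    intro q hq
    obtain ⟨ρ, ξ, ρ', ξ', rfl⟩ := hA q hq
    have hx := rank_lt_of_pair_mem_left hq
    have hy := rank_lt_of_pair_mem_right hq
    rw [← hδ] at hx hy
    have e1 : ρ < δ := by
      have := (lci_rank_left ρ.toZFSet ξ.toZFSet).trans hx
      rwa [Ordinal.rank_toZFSet] at this
    have e2 : ξ < δ := by
      have := (lci_rank_right ρ.toZFSet ξ.toZFSet).trans hx
      rwa [Ordinal.rank_toZFSet] at this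
    have e3 : ρ' < δ := by
      have := (lci_rank_left ρ'.toZFSet ξ'.toZFSet).trans hy
      rwa [Ordinal.rank_toZFSet] at this
    have e4 : ξ' < δ := by
      have := (lci_rank_right ρ'.toZFSet ξ'.toZFSet).trans hy
      rwa [Ordinal.rank_toZFSet] at this
    exact lci_opair h0 (lci_opair h0 (ord_mem_Lh h0 e1) (ord_mem_Lh h0 e2))
      (lci_opair h0 (ord_mem_Lh h0 e3) (ord_mem_Lh h0 e4))
  have hAA : A ∩ Lh ∅ A (δ + 1 + 1 + 1 + 1) = A := by
    ext z
    rw [ZFSet.mem_inter]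
    exact ⟨fun h => h.1, fun h => ⟨h, hsub h⟩⟩
  have hlt : δ + 1 + 1 + 1 + 1 < γ := by
    refine lt_of_le_of_lt ?_ hγ
    rw [hδ, add_assoc, add_assoc, add_assoc]
    gcongr
    norm_num
  have h := pred_mem_Lh (a := ∅) (A := A) hlt
  rw [hAA] at h
  exact h

end SF
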