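import Pool.Agent.H68.SF.LT2

/-! LVV: V is a model of ZFC minus (helper67) -/

open Ordinal Cardinal Order Set
open scoped ZFSet

namespace SF

theorem pf_LVV : T_LVV := by
  classical
  refine { trans := fun _ _ _ _ => trivial, pair := fun _ _ _ _ => trivial,
           union := fun _ _ => trivial, inf := trivial, sep := fun _ _ _ _ _ => trivial,
           coll := ?_, wo := ?_ }
  · intro φ v a _ _ h
    refine ⟨imS a fun x => if h : ∃ y, Sat (fun _ => True) φ (cons y (cons x v)) then h.choose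
      else ∅, trivial, fun x hx => ?_⟩
    obtain ⟨y, -, hy⟩ := h x hx
    have h1 : ∃ y, Sat (fun _ => True) φ (cons y (cons x v)) := ⟨y, hy⟩
    refine ⟨h1.choose, mem_imS.2 ⟨x, hx, ?_⟩, h1.choose_spec⟩
    rw [dif_pos h1]
  · intro x _
    obtain ⟨α, hα⟩ : ∃ α : Ordinal.{0}, α = (#(Shrink.{0} {y // y ∈ x})).ord := ⟨_, rfl⟩
    have hcard : #(Set.Iio α) = Cardinal.lift.{1} #(Shrink.{0} {y // y ∈ x}) := by
      rw [Cardinal.mk_Iio_ordinal, hα, Cardinal.card_ord]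
    have hcard2 : #(Set.Iio α) = #{y // y ∈ x} := by
      rw [hcard]
      have h1 := Cardinal.mk_congr_lift (equivShrink.{0} {y // y ∈ x})
      simp at h1 ⊢
    obtain ⟨e⟩ := Cardinal.eq.1 hcard2
    refine ⟨α, resS α.toZFSet fun z => if h : z.rank < α then (e ⟨z.rank, h⟩ : V) else ∅, trivial,
      isFunc_resS _ _ _ ?_, ?_⟩
    · intro z hz
      obtain ⟨β, hβ, rfl⟩ := Ordinal.mem_toZFSet_iff.1 hz
      have hr : (Ordinal.toZFSet β).rank < α := by rwa [Ordinal.rank_toZFSet]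
      rw [dif_pos hr]
      exact (e ⟨_, hr⟩).2
    · intro b hb
      obtain ⟨⟨β, hβ⟩, he⟩ := e.surjective ⟨b, hb⟩
      have hβ' : β < α := hβ
      refine ⟨β.toZFSet, Ordinal.mem_toZFSet_iff.2 ⟨β, hβ', rfl⟩, pair_mem_resS.2
        ⟨Ordinal.mem_toZFSet_iff.2 ⟨β, hβ', rfl⟩, ?_⟩⟩
      have hr : (Ordinal.toZFSet β).rank < α := by rwa [Ordinal.rank_toZFSet]
      rw [dif_pos hr]
      have h2 : (⟨(Ordinal.toZFSet β).rank, hr⟩ : Set.Iio α) = ⟨β, hβ⟩ :=
        Subtype.ext (Ordinal.rank_toZFSet β)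
      rw [h2, he]

end SF
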