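import Pool.Agent.H68.SF.LT2

/-! LMI: minimal models of ZFC minus are of the form L[B] (helper67) -/

open Ordinal Cardinal Order Set
open scoped ZFSet

namespace SF

theorem pf_LMI (hLCD : T_LCD) (hLDC : T_LDC) (hLCI : T_LCI) (hLIN : T_LIN) (hLHT : T_LHT)
    (hRKT : T_RKT) : T_LMI := by
  intro N τ hN hτ p hp hmin
  have h0 : (∅ : V).IsTransitive := ZFSet.isTransitive_empty
  have hZ : ZFm (· ∈ N) := hN.toZFm
  obtain ⟨B, ρ, ξ, hcode, hB, hρ, hξ, hdec⟩ := hLCD (· ∈ N) hN p hp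
  -- the height is a limit
  have hsucc : ∀ α < τ, α + 1 < τ := by
    intro α hα
    rw [← hτ] at hα ⊢
    rw [Ordinal.toZFSet_add_one]
    have h := (Tm.ins (Tm.var 0) (Tm.var 0)).1 (· ∈ N) hZ (fun _ => α.toZFSet) (fun _ => hα)
    exact h
  have hω : (ω : Ordinal.{0}) < τ := (hτ _).1 hZ.inf
  have hlim : IsSuccLimit τ := by
    refine ⟨fun h => ?_, fun b hb => ?_⟩
    · exact absurd (h (bot_le : (⊥ : Ordinal.{0}) ≤ τ)) (not_le.2 (lt_of_le_of_lt bot_le hω))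
    · exact hb.2 (Order.lt_add_one_iff.2 le_rfl) (hsucc b hb.1)
  have hsub : ∀ β < τ, Lh ∅ B β ⊆ N := by
    intro β hβ x hx
    have h1 := hLHT.1 (· ∈ N) hZ (fun i => if i = 0 then ∅ else if i = 1 then B else β.toZFSet)
      (by
        intro i
        show (if i = 0 then ∅ else if i = 1 then B else β.toZFSet) ∈ N
        split_ifs
        · exact hZ.mempty
        · exact hB
        · exact (hτ β).2 hβ)
    have h2 : Lh ∅ B β ∈ N := by
      have h3 : Lh ∅ B (Ordinal.toZFSet β).rank ∈ N := h1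
      rwa [Ordinal.rank_toZFSet] at h3
    exact hZ.trans _ h2 x hx
  have hmem : ∀ x, x ∈ LA B τ ↔ ∃ α : Ordinal.{0}, α.toZFSet ∈ N ∧ x ∈ Lh ∅ B α := by
    intro x
    unfold LA
    rw [mem_Lh_limit hlim]
    refine exists_congr fun α => and_congr_left fun _ => ?_
    exact (hτ α).symm
  have hMN : LA B τ ⊆ N := by
    intro x hx
    obtain ⟨α, hα, hx⟩ := (hmem x).1 hx
    exact hsub α ((hτ α).1 hα) hx
  have hMZ : ZFm (· ∈ LA B τ) := by
    have h := hLIN (· ∈ N) hZ ∅ B hZ.mempty hB h0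
    have e : (fun x => ∃ α : Ordinal.{0}, α.toZFSet ∈ N ∧ x ∈ Lh ∅ B α) = (· ∈ LA B τ) := by
      funext x
      exact propext (hmem x).symm
    rw [← e]
    exact h
  have hord : ∀ α < τ, α.toZFSet ∈ LA B τ := fun α hα => ord_mem_Lh h0 hα
  have hrank : B.rank < τ := by
    rw [← hτ]
    exact hRKT.1 (· ∈ N) hZ (fun _ => B) (fun _ => hB)
  have hBM : B ∈ LA B τ := by
    have h6 : B.rank + 1 + 1 + 1 + 1 + 1 + 1 < τ :=
      hsucc _ (hsucc _ (hsucc _ (hsucc _ (hsucc _ (hsucc _ hrank)))))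
    have h5 : B.rank + 5 < B.rank + 1 + 1 + 1 + 1 + 1 + 1 := by
      rw [add_assoc, add_assoc, add_assoc, add_assoc, add_assoc]
      gcongr
      norm_num
    exact Lh_mono h6.le (hLCI B hcode _ h5)
  have hpM : p ∈ LA B τ := by
    have h1 := hLDC.2.1 (· ∈ LA B τ) hMZ
      (fun i => if i = 0 then B else ZFSet.pair ρ.toZFSet ξ.toZFSet) (by
        intro i
        show (if i = 0 then B else ZFSet.pair ρ.toZFSet ξ.toZFSet) ∈ LA B τ
        split_ifs
        · exact hBM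
        · exact hMZ.mpair (hord ρ ((hτ ρ).1 hρ)) (hord ξ ((hτ ξ).1 hξ)))
    have h2 : dec B (ZFSet.pair ρ.toZFSet ξ.toZFSet) ∈ LA B τ := h1
    rwa [hdec] at h2
  have hh : ∀ α : Ordinal.{0}, α.toZFSet ∈ LA B τ ↔ α < τ :=
    fun α => ⟨fun h => (hτ α).1 (hMN h), hord α⟩
  have hNM := hmin (LA B τ) hMZ hh hpM hMN
  refine ⟨B, hB, hcode, ?_⟩
  ext x
  exact ⟨fun h => hNM h, fun h => hMN h⟩

end SF
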