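import Pool.Agent.H67.SF.QC0

/-! QE: preorders in the extension are given by B-preorders (helper67) -/

set_option linter.unusedVariables false

open Ordinal Cardinal Order Set
open scoped ZFSet

namespace SF.H67

open SF

/-- the arguments of the Boolean value -/
private noncomputable def qeF : ℕ → (V → Prop) → (ℕ → V) → V
  | 0 => fun _ u => opn (pos (u 1)) (ck (pos (u 1)) (fst (u 0))) (ck (pos (u 1)) (snd (u 0)))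
  | _ + 1 => fun _ u => u 2

private theorem qe_pos {f : (V → Prop) → (ℕ → V) → V} (hf : Tm ZFm f) :
    Tm ZFm (fun M v => pos (f M v)) :=
  Tm.diff hf (Tm.sing Tm.empty)

private theorem tm_qeF (hFH : T_FH) : ∀ i, Tm ZFm (qeF i) := by
  intro i
  obtain ⟨-, -, -, -, -, hck, -, -, hop⟩ := hFH
  cases i with
  | zero =>
    exact Tm.at3 (F := fun _ x y z => opn x y z) hop (qe_pos (Tm.var 1))
      (Tm.at2 (F := fun _ x y => ck x y) hck (qe_pos (Tm.var 1)) (Tm.fst (Tm.var 0)))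
      (Tm.at2 (F := fun _ x y => ck x y) hck (qe_pos (Tm.var 1)) (Tm.snd (Tm.var 0)))
  | succ i => exact Tm.var 2

/-- Boolean values of `(ξ, η) ∈ rr` -/
private theorem qe_rho0 (hFH : T_FH) (hWF : T_WF) (hWI : T_WI) {M : V → Prop} {B G mu n : V}
    (k : ZFm M) (hB : M B) (hC : CBAr M B) (hne : B ≠ {∅}) (hG : Gen M (pos B) (incl B) G)
    (hmu : M mu) (hn : M n) :
    ∃ r0, M r0 ∧ (∀ ξ ∈ mu, ∀ η ∈ mu, app r0 (ZFSet.pair ξ η) ∈ B) ∧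
      ∀ ξ ∈ mu, ∀ η ∈ mu, (app r0 (ZFSet.pair ξ η) ∈ G ↔ ZFSet.pair ξ η ∈ val G n) := by
  have hv : In M (cons B fun _ => n) := In.cons (fun _ => hn) hB
  have hprod : M (ZFSet.prod mu mu) :=
    (Tm.prod (Tm.var 0) (Tm.var 0)).1 M k (fun _ => mu) (fun _ => hmu)
  refine ⟨_, bvfun (B := B) hWF k hprod (.mem 0 1) qeF (tm_qeF hFH) (cons B fun _ => n) hv rfl, ?_, ?_⟩
  · intro ξ hξ η hη
    rw [app_resS (ZFSet.pair_mem_prod.2 ⟨hξ, hη⟩)]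
    refine (hWI M B k hB hC hne (.mem 0 1) _ ?_).1
    intro i
    exact (tm_qeF hFH i).1 M k _ (hv.cons (k.mpair (k.trans _ hmu _ hξ) (k.trans _ hmu _ hη)))
  · intro ξ hξ η hη
    rw [app_resS (ZFSet.pair_mem_prod.2 ⟨hξ, hη⟩)]
    have hin : In M fun i => qeF i M (cons (ZFSet.pair ξ η) (cons B fun _ => n)) := by
      intro i
      exact (tm_qeF hFH i).1 M k _ (hv.cons (k.mpair (k.trans _ hmu _ hξ) (k.trans _ hmu _ hη)))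
    rw [(hWI M B k hB hC hne (.mem 0 1) _ hin).2.2 G hG]
    show val G (opn (pos B) (ck (pos B) (fst (ZFSet.pair ξ η))) (ck (pos B)
      (snd (ZFSet.pair ξ η)))) ∈ val G n ↔ _
    obtain ⟨-, hval, -, -, hopn, -⟩ := hFH
    rw [hopn _ _ _ _ hG.1.sub hG.1.ne, hval _ _ _ hG.1.sub hG.1.ne, hval _ _ _ hG.1.sub hG.1.ne,
      fst_pair, snd_pair]

/-- `b` decides that `r0` is a preorder, or it decides a violation -/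
private def qeK (b mu r0 : V) : Prop :=
  ((∀ ξ ∈ mu, b ⊆ app r0 (ZFSet.pair ξ ξ)) ∧ ∀ ξ ∈ mu, ∀ η ∈ mu, ∀ ζ ∈ mu,
    b ∩ app r0 (ZFSet.pair ξ η) ∩ app r0 (ZFSet.pair η ζ) ⊆ app r0 (ZFSet.pair ξ ζ)) ∨
  (∃ ξ ∈ mu, b ∩ app r0 (ZFSet.pair ξ ξ) = ∅) ∨
  ∃ ξ ∈ mu, ∃ η ∈ mu, ∃ ζ ∈ mu, b ⊆ app r0 (ZFSet.pair ξ η) ∩ app r0 (ZFSet.pair η ζ) ∧
    b ∩ app r0 (ZFSet.pair ξ ζ) = ∅

/-- variables: b mu r0 -/
private theorem qeK_dfb : Dfb ZFm (fun _ v => qeK (v 0) (v 1) (v 2)) := by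
  have a1 : Dfb ZFm (fun _ v => v 1 ⊆ app (v 3) (ZFSet.pair (v 0) (v 0))) :=
    Dfb.subset (Tm.var 1) (Tm.app (Tm.var 3) (Tm.pair (Tm.var 0) (Tm.var 0)))
  have a2 : Dfb ZFm (fun _ v => ∀ ξ ∈ v 1, v 0 ⊆ app (v 2) (ZFSet.pair ξ ξ)) :=
    Dfb.ball ktr_zfm (Tm.var 1) a1
  have b1 : Dfb ZFm (fun _ v => v 3 ∩ app (v 5) (ZFSet.pair (v 2) (v 1)) ∩
      app (v 5) (ZFSet.pair (v 1) (v 0)) ⊆ app (v 5) (ZFSet.pair (v 2) (v 0))) :=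
    Dfb.subset (Tm.inter (Tm.inter (Tm.var 3) (Tm.app (Tm.var 5) (Tm.pair (Tm.var 2) (Tm.var 1))))
      (Tm.app (Tm.var 5) (Tm.pair (Tm.var 1) (Tm.var 0))))
      (Tm.app (Tm.var 5) (Tm.pair (Tm.var 2) (Tm.var 0)))
  have b2 : Dfb ZFm (fun _ v => ∀ ζ ∈ v 3, v 2 ∩ app (v 4) (ZFSet.pair (v 1) (v 0)) ∩
      app (v 4) (ZFSet.pair (v 0) ζ) ⊆ app (v 4) (ZFSet.pair (v 1) ζ)) :=
    Dfb.ball ktr_zfm (Tm.var 3) b1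
  have b3 : Dfb ZFm (fun _ v => ∀ η ∈ v 2, ∀ ζ ∈ v 2, v 1 ∩ app (v 3) (ZFSet.pair (v 0) η) ∩
      app (v 3) (ZFSet.pair η ζ) ⊆ app (v 3) (ZFSet.pair (v 0) ζ)) :=
    Dfb.ball ktr_zfm (Tm.var 2) b2
  have b4 : Dfb ZFm (fun _ v => ∀ ξ ∈ v 1, ∀ η ∈ v 1, ∀ ζ ∈ v 1, v 0 ∩
      app (v 2) (ZFSet.pair ξ η) ∩ app (v 2) (ZFSet.pair η ζ) ⊆ app (v 2) (ZFSet.pair ξ ζ)) :=
    Dfb.ball ktr_zfm (Tm.var 1) b3
  have c1 : Dfb ZFm (fun _ v => v 1 ∩ app (v 3) (ZFSet.pair (v 0) (v 0)) = ∅) :=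
    Dfb.eq (Tm.inter (Tm.var 1) (Tm.app (Tm.var 3) (Tm.pair (Tm.var 0) (Tm.var 0)))) Tm.empty
  have c2 : Dfb ZFm (fun _ v => ∃ ξ ∈ v 1, v 0 ∩ app (v 2) (ZFSet.pair ξ ξ) = ∅) :=
    Dfb.bex ktr_zfm (Tm.var 1) c1
  have d1 : Dfb ZFm (fun _ v => v 3 ⊆ app (v 5) (ZFSet.pair (v 2) (v 1)) ∩
      app (v 5) (ZFSet.pair (v 1) (v 0)) ∧ v 3 ∩ app (v 5) (ZFSet.pair (v 2) (v 0)) = ∅) :=
    (Dfb.subset (Tm.var 3) (Tm.inter (Tm.app (Tm.var 5) (Tm.pair (Tm.var 2) (Tm.var 1)))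
      (Tm.app (Tm.var 5) (Tm.pair (Tm.var 1) (Tm.var 0))))).and
      (Dfb.eq (Tm.inter (Tm.var 3) (Tm.app (Tm.var 5) (Tm.pair (Tm.var 2) (Tm.var 0)))) Tm.empty)
  have d2 : Dfb ZFm (fun _ v => ∃ ζ ∈ v 3, v 2 ⊆ app (v 4) (ZFSet.pair (v 1) (v 0)) ∩
      app (v 4) (ZFSet.pair (v 0) ζ) ∧ v 2 ∩ app (v 4) (ZFSet.pair (v 1) ζ) = ∅) :=
    Dfb.bex ktr_zfm (Tm.var 3) d1
  have d3 : Dfb ZFm (fun _ v => ∃ η ∈ v 2, ∃ ζ ∈ v 2, v 1 ⊆ app (v 3) (ZFSet.pair (v 0) η) ∩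
      app (v 3) (ZFSet.pair η ζ) ∧ v 1 ∩ app (v 3) (ZFSet.pair (v 0) ζ) = ∅) :=
    Dfb.bex ktr_zfm (Tm.var 2) d2
  have d4 : Dfb ZFm (fun _ v => ∃ ξ ∈ v 1, ∃ η ∈ v 1, ∃ ζ ∈ v 1, v 0 ⊆
      app (v 2) (ZFSet.pair ξ η) ∩ app (v 2) (ZFSet.pair η ζ) ∧
      v 0 ∩ app (v 2) (ZFSet.pair ξ ζ) = ∅) :=
    Dfb.bex ktr_zfm (Tm.var 1) d3
  exact (a2.and b4).or (c2.or d4)

private theorem mem_pos {B b : V} : b ∈ pos B ↔ b ∈ B ∧ b ≠ ∅ := by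
  unfold pos
  simp

private theorem mem_incl {B a b : V} : ZFSet.pair a b ∈ incl B ↔ a ∈ pos B ∧ b ∈ pos B ∧ a ⊆ b := by
  unfold incl
  rw [ZFSet.mem_sep, ZFSet.pair_mem_prod, fst_pair, snd_pair, and_assoc]

private theorem sub_int {x y z : V} (h1 : x ⊆ y) (h2 : x ⊆ z) : x ⊆ y ∩ z :=
  fun t ht => ZFSet.mem_inter.2 ⟨h1 ht, h2 ht⟩

private theorem int_sub_l (x y : V) : x ∩ y ⊆ x := fun t ht => (ZFSet.mem_inter.1 ht).1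

private theorem int_sub_r (x y : V) : x ∩ y ⊆ y := fun t ht => (ZFSet.mem_inter.1 ht).2

/-- an element of the generic filter decides that `r0` is a preorder -/
private theorem qe_b0 (hWG : T_WG) (hWH : T_WH) {M : V → Prop} {B G mu rr r0 : V}
    (k : ZFm M) (hB : M B) (hC : CBAr M B) (hG : Gen M (pos B) (incl B) G)
    (hmu : M mu) (hr0 : M r0) (hr0B : ∀ ξ ∈ mu, ∀ η ∈ mu, app r0 (ZFSet.pair ξ η) ∈ B)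
    (hr0G : ∀ ξ ∈ mu, ∀ η ∈ mu, (app r0 (ZFSet.pair ξ η) ∈ G ↔ ZFSet.pair ξ η ∈ rr))
    (hrr : IsPo mu rr) :
    ∃ b0 ∈ G, (∀ ξ ∈ mu, b0 ⊆ app r0 (ZFSet.pair ξ ξ)) ∧ ∀ ξ ∈ mu, ∀ η ∈ mu, ∀ ζ ∈ mu,
      b0 ∩ app r0 (ZFSet.pair ξ η) ∩ app r0 (ZFSet.pair η ζ) ⊆ app r0 (ZFSet.pair ξ ζ) := by
  obtain ⟨hsep, -⟩ := hWG.2.2.2 M B hC
  obtain ⟨w1, w2, w3, -⟩ := hWH M B G k hB hC hG
  have hD0 : Dfb ZFm (fun _ t => qeK (t 0) (t 2) (t 3)) :=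
    qeK_dfb.rn fun i => [0, 2, 3].getD i 0
  have hD := (Tm.sep hD0 (qe_pos (Tm.var 0))).1 M k (cons B (cons mu fun _ => r0))
    (In.cons (In.cons (fun _ => hr0) hmu) hB)
  have hD' : M ((pos B).sep fun b => qeK b mu r0) := hD
  have hdense : IsDense (pos B) (incl B) ((pos B).sep fun b => qeK b mu r0) := by
    refine ⟨ZFSet.sep_subset, fun b hb => ?_⟩
    have hbB := (mem_pos.1 hb).1
    by_cases hK : (∀ ξ ∈ mu, b ⊆ app r0 (ZFSet.pair ξ ξ)) ∧ ∀ ξ ∈ mu, ∀ η ∈ mu, ∀ ζ ∈ mu,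
        b ∩ app r0 (ZFSet.pair ξ η) ∩ app r0 (ZFSet.pair η ζ) ⊆ app r0 (ZFSet.pair ξ ζ)
    · exact ⟨b, ZFSet.mem_sep.2 ⟨hb, Or.inl hK⟩, mem_incl.2 ⟨hb, hb, fun _ h => h⟩⟩
    · rw [not_and_or] at hK
      rcases hK with hK | hK
      · push Not at hK
        obtain ⟨ξ, hξ, hK⟩ := hK
        obtain ⟨z, hz, hz0, hzb, hz2⟩ := hsep b hbB _ (hr0B ξ hξ ξ hξ) hK
        exact ⟨z, ZFSet.mem_sep.2 ⟨mem_pos.2 ⟨hz, hz0⟩, Or.inr (Or.inl ⟨ξ, hξ, hz2⟩)⟩,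
          mem_incl.2 ⟨mem_pos.2 ⟨hz, hz0⟩, hb, hzb⟩⟩
      · push Not at hK
        obtain ⟨ξ, hξ, η, hη, ζ, hζ, hK⟩ := hK
        obtain ⟨z, hz, hz0, hzb, hz2⟩ := hsep _ (hC.inter _ (hC.inter _ hbB _ (hr0B ξ hξ η hη)) _
          (hr0B η hη ζ hζ)) _ (hr0B ξ hξ ζ hζ) hK
        have e1 : z ⊆ b := fun t ht => int_sub_l _ _ (int_sub_l _ _ (hzb ht))
        have e2 : z ⊆ app r0 (ZFSet.pair ξ η) := fun t ht => int_sub_r _ _ (int_sub_l _ _ (hzb ht))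
        have e3 : z ⊆ app r0 (ZFSet.pair η ζ) := fun t ht => int_sub_r _ _ (hzb ht)
        exact ⟨z, ZFSet.mem_sep.2 ⟨mem_pos.2 ⟨hz, hz0⟩, Or.inr (Or.inr ⟨ξ, hξ, η, hη, ζ, hζ,
          sub_int e2 e3, hz2⟩)⟩, mem_incl.2 ⟨mem_pos.2 ⟨hz, hz0⟩, hb, e1⟩⟩
  obtain ⟨b0, hb0, hb0D⟩ := hG.2 _ hD' hdense
  obtain ⟨-, hK⟩ := ZFSet.mem_sep.1 hb0D
  rcases hK with hK | ⟨ξ, hξ, hK⟩ | ⟨ξ, hξ, η, hη, ζ, hζ, hK1, hK2⟩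
  · exact ⟨b0, hb0, hK⟩
  · exfalso
    have h1 : app r0 (ZFSet.pair ξ ξ) ∈ G := (hr0G ξ hξ ξ hξ).2 (hrr.refl ξ hξ)
    exact (w2 _ (w1 _ hb0 _ h1)).2 hK
  · exfalso
    have h1 : app r0 (ZFSet.pair ξ η) ∈ G :=
      w3 _ hb0 _ (hr0B ξ hξ η hη) fun t ht => int_sub_l _ _ (hK1 ht)
    have h2 : app r0 (ZFSet.pair η ζ) ∈ G :=
      w3 _ hb0 _ (hr0B η hη ζ hζ) fun t ht => int_sub_r _ _ (hK1 ht)
    have h3 : app r0 (ZFSet.pair ξ ζ) ∈ G := (hr0G ξ hξ ζ hζ).2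
      (hrr.trans ξ η ζ ((hr0G ξ hξ η hη).1 h1) ((hr0G η hη ζ hζ).1 h2))
    exact (w2 _ (w1 _ hb0 _ h3)).2 hK2

/-- the sets of which the least upper bounds are taken; variables: x q B b0 r0 -/
private def qeR (t : ℕ → V) : Prop :=
  (t 0 ⊆ t 3 ∧ t 0 ⊆ app (t 4) (t 1)) ∨ (t 0 ∩ t 3 = ∅ ∧ fst (t 1) = snd (t 1))

private theorem qeR_dfb : Dfb ZFm (fun _ t => qeR t) :=
  ((Dfb.subset (Tm.var 0) (Tm.var 3)).and (Dfb.subset (Tm.var 0) (Tm.app (Tm.var 4) (Tm.var 1)))).or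
    ((Dfb.eq (Tm.inter (Tm.var 0) (Tm.var 3)) Tm.empty).and
      (Dfb.eq (Tm.fst (Tm.var 1)) (Tm.snd (Tm.var 1))))

theorem qe (hFH : T_FH) (hWF : T_WF) (hWG : T_WG) (hWH : T_WH) (hWI : T_WI) : T_QE := by
  intro M B G mu rr k _ hB hC hne hG hmu hext hrr
  obtain ⟨n, hn, hrn⟩ := hext
  obtain ⟨hsep, hdisj⟩ := hWG.2.2.2 M B hC
  obtain ⟨w1, w2, w3, -⟩ := hWH M B G k hB hC hG
  obtain ⟨r0, hr0, hr0B, hr0G⟩ := qe_rho0 hFH hWF hWI k hB hC hne hG hmu hn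
  rw [← hrn] at hr0G
  obtain ⟨b0, hb0, hb1, hb2⟩ := qe_b0 hWG hWH k hB hC hG hmu hr0 hr0B hr0G hrr
  have hb0B : b0 ∈ B := (w2 _ hb0).1
  have hb0M : M b0 := k.trans _ hB _ hb0B
  have hprod : M (ZFSet.prod mu mu) :=
    (Tm.prod (Tm.var 0) (Tm.var 0)).1 M k (fun _ => mu) (fun _ => hmu)
  obtain ⟨ρ, hρ, hρf, hρl⟩ := lubfun hWF k hC hB hprod qeR_dfb (cons B (cons b0 fun _ => r0))
    (In.cons (In.cons (fun _ => hr0) hb0M) hB) rfl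
  -- the value at a pair
  obtain ⟨S, hS⟩ : ∃ S : V → V → V, S = fun ξ η => B.sep fun x =>
      (x ⊆ b0 ∧ x ⊆ app r0 (ZFSet.pair ξ η)) ∨ (x ∩ b0 = ∅ ∧ ξ = η) := ⟨_, rfl⟩
  have hl : ∀ ξ ∈ mu, ∀ η ∈ mu, LubB B (S ξ η) (app ρ (ZFSet.pair ξ η)) := by
    intro ξ hξ η hη
    have h1 := hρl _ (ZFSet.pair_mem_prod.2 ⟨hξ, hη⟩)
    have h2 : LubB B (B.sep fun x => (x ⊆ b0 ∧ x ⊆ app r0 (ZFSet.pair ξ η)) ∨
        (x ∩ b0 = ∅ ∧ fst (ZFSet.pair ξ η) = snd (ZFSet.pair ξ η))) (app ρ (ZFSet.pair ξ η)) := h1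
    rw [hS]
    simpa only [fst_pair, snd_pair] using h2
  have fa : ∀ ξ ∈ mu, ∀ η ∈ mu, ∀ x ∈ B, x ⊆ b0 → x ⊆ app r0 (ZFSet.pair ξ η) →
      x ⊆ app ρ (ZFSet.pair ξ η) := by
    intro ξ hξ η hη x hx h1 h2
    refine (hl ξ hξ η hη).2.1 x ?_
    rw [hS]
    exact ZFSet.mem_sep.2 ⟨hx, Or.inl ⟨h1, h2⟩⟩
  have fb : ∀ ξ ∈ mu, ∀ η ∈ mu, app ρ (ZFSet.pair ξ η) ∩ b0 ⊆ app r0 (ZFSet.pair ξ η) := by
    intro ξ hξ η hη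
    by_contra hcon
    have hL := hl ξ hξ η hη
    obtain ⟨z, hz, hz0, hzb, hz2⟩ := hsep _ (hC.inter _ hL.1 _ hb0B) _ (hr0B ξ hξ η hη) hcon
    have h1 : app ρ (ZFSet.pair ξ η) ∩ z = ∅ := by
      refine hdisj (S ξ η) _ z hL (by rw [hS]; exact ZFSet.sep_subset) hz fun s hs => ?_
      rw [hS] at hs
      obtain ⟨-, hs⟩ := ZFSet.mem_sep.1 hs
      refine (ZFSet.eq_empty _).2 fun t ht => ?_
      obtain ⟨ht1, ht2⟩ := ZFSet.mem_inter.1 ht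
      rcases hs with ⟨-, hs⟩ | ⟨hs, -⟩
      · exact (ZFSet.eq_empty _).1 hz2 t (ZFSet.mem_inter.2 ⟨ht2, hs ht1⟩)
      · exact (ZFSet.eq_empty _).1 hs t (ZFSet.mem_inter.2 ⟨ht1, int_sub_r _ _ (hzb ht2)⟩)
    refine hz0 ((ZFSet.eq_empty _).2 fun t ht => ?_)
    exact (ZFSet.eq_empty _).1 h1 t (ZFSet.mem_inter.2 ⟨int_sub_l _ _ (hzb ht), ht⟩)
  have fc : ∀ ξ ∈ mu, ∀ b ∈ B, b ⊆ app ρ (ZFSet.pair ξ ξ) := by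
    intro ξ hξ b hb
    by_contra hcon
    have hL := hl ξ hξ ξ hξ
    obtain ⟨z, hz, hz0, hzb, hz2⟩ := hsep _ hb _ hL.1 hcon
    have key : ∀ w ∈ B, w ⊆ z → w ⊆ app ρ (ZFSet.pair ξ ξ) → w = ∅ := fun w _ h1 h2 =>
      (ZFSet.eq_empty _).2 fun t ht => (ZFSet.eq_empty _).1 hz2 t
        (ZFSet.mem_inter.2 ⟨h1 ht, h2 ht⟩)
    by_cases hzb0 : z ∩ b0 = ∅
    · refine hz0 (key z hz (fun _ h => h) (hL.2.1 z ?_))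
      rw [hS]
      exact ZFSet.mem_sep.2 ⟨hz, Or.inr ⟨hzb0, rfl⟩⟩
    · refine hzb0 (key _ (hC.inter _ hz _ hb0B) (int_sub_l _ _) ?_)
      exact fa ξ hξ ξ hξ _ (hC.inter _ hz _ hb0B) (int_sub_r _ _)
        fun t ht => hb1 ξ hξ (int_sub_r _ _ ht)
  have fd : ∀ ξ ∈ mu, ∀ η ∈ mu, ξ ≠ η → app ρ (ZFSet.pair ξ η) ⊆ b0 := by
    intro ξ hξ η hη hne'
    refine (hl ξ hξ η hη).2.2 b0 hb0B fun s hs => ?_
    rw [hS] at hs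
    obtain ⟨-, hs⟩ := ZFSet.mem_sep.1 hs
    rcases hs with ⟨hs, -⟩ | ⟨-, hs⟩
    · exact hs
    · exact absurd hs hne'
  refine ⟨ρ, hρ, ⟨hrr.ne, hρf, fc, ?_⟩, ?_⟩
  · intro ξ hξ η hη ζ hζ
    by_cases h1 : ξ = η
    · rw [h1]; exact int_sub_r _ _
    by_cases h2 : η = ζ
    · rw [h2]; exact int_sub_l _ _
    have hBx := hC.inter _ (hl ξ hξ η hη).1 _ (hl η hη ζ hζ).1
    have e0 : app ρ (ZFSet.pair ξ η) ∩ app ρ (ZFSet.pair η ζ) ⊆ b0 :=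
      fun t ht => fd ξ hξ η hη h1 (int_sub_l _ _ ht)
    refine fa ξ hξ ζ hζ _ hBx e0 fun t ht => ?_
    have e1 : t ∈ app r0 (ZFSet.pair ξ η) :=
      fb ξ hξ η hη (ZFSet.mem_inter.2 ⟨int_sub_l _ _ ht, e0 ht⟩)
    have e2 : t ∈ app r0 (ZFSet.pair η ζ) :=
      fb η hη ζ hζ (ZFSet.mem_inter.2 ⟨int_sub_r _ _ ht, e0 ht⟩)
    exact hb2 ξ hξ η hη ζ hζ (ZFSet.mem_inter.2 ⟨ZFSet.mem_inter.2 ⟨e0 ht, e1⟩, e2⟩)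
  · have hiff : ∀ ξ ∈ mu, ∀ η ∈ mu, (app ρ (ZFSet.pair ξ η) ∈ G ↔ ZFSet.pair ξ η ∈ rr) := by
      intro ξ hξ η hη
      rw [← hr0G ξ hξ η hη]
      constructor
      · intro h
        exact w3 _ (w1 _ h _ hb0) _ (hr0B ξ hξ η hη) (fb ξ hξ η hη)
      · intro h
        have h1 := w1 _ h _ hb0
        exact w3 _ h1 _ (hl ξ hξ η hη).1
          (fa ξ hξ η hη _ (w2 _ h1).1 (int_sub_r _ _) (int_sub_l _ _))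
    ext z
    unfold rt
    rw [ZFSet.mem_sep]
    constructor
    · rintro ⟨hz, h⟩
      obtain ⟨ξ, hξ, η, hη, rfl⟩ := ZFSet.mem_prod.1 hz
      exact (hiff ξ hξ η hη).1 h
    · intro hz
      obtain ⟨ξ, hξ, η, hη, rfl⟩ := hrr.sub z hz
      exact ⟨ZFSet.pair_mem_prod.2 ⟨hξ, hη⟩, (hiff ξ hξ η hη).2 hz⟩

end SF.H67
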