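import Pool.Agent.H67.SF.QC0

/-! QF: names of sequences of dense sets (helper67) -/

set_option linter.unusedVariables false

open Ordinal Cardinal Order Set
open scoped ZFSet

namespace SF.H67

open SF

/-- the arguments of the Boolean value -/
private noncomputable def qfF : ℕ → (V → Prop) → (ℕ → V) → V
  | 0 => fun _ u => ck (pos (u 1)) (snd (u 0))
  | 1 => fun _ u => ck (pos (u 1)) (fst (u 0))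
  | _ + 2 => fun _ u => u 2

private theorem qf_pos {f : (V → Prop) → (ℕ → V) → V} (hf : Tm ZFm f) :
    Tm ZFm (fun M v => pos (f M v)) :=
  Tm.diff hf (Tm.sing Tm.empty)

private theorem tm_qfF (hFH : T_FH) : ∀ i, Tm ZFm (qfF i) := by
  intro i
  obtain ⟨-, -, -, -, -, hck, -, -, hop⟩ := hFH
  match i with
  | 0 => exact Tm.at2 (F := fun _ x y => ck x y) hck (qf_pos (Tm.var 1)) (Tm.snd (Tm.var 0))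
  | 1 => exact Tm.at2 (F := fun _ x y => ck x y) hck (qf_pos (Tm.var 1)) (Tm.fst (Tm.var 0))
  | i + 2 => exact Tm.var 2

/-- Boolean values of `ξ ∈ D i` -/
private theorem qf_d0 (hFH : T_FH) (hFI : T_FI) (hWF : T_WF) (hWG : T_WG) (hWI : T_WI)
    {M : V → Prop} {B G o mu n : V}
    (k : ZFm M) (hB : M B) (hC : CBAr M B) (hne : B ≠ {∅}) (hG : Gen M (pos B) (incl B) G)
    (ho : M o) (hmu : M mu) (hn : M n) :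
    ∃ d0, M d0 ∧ (∀ i ∈ o, ∀ ξ ∈ mu, app d0 (ZFSet.pair i ξ) ∈ B) ∧
      ∀ i ∈ o, ∀ ξ ∈ mu, (app d0 (ZFSet.pair i ξ) ∈ G ↔ ξ ∈ app (val G n) i) := by
  obtain ⟨φ, hφ⟩ : Dfb ZFm (fun _ v => v 0 ∈ app (v 2) (v 1)) :=
    Dfb.mem (Tm.var 0) (Tm.app (Tm.var 2) (Tm.var 1))
  have hv : In M (cons B fun _ => n) := In.cons (fun _ => hn) hB
  have hprod : M (ZFSet.prod o mu) :=
    (Tm.prod (Tm.var 0) (Tm.var 1)).1 M k (cons o fun _ => mu) (In.cons (fun _ => hmu) ho)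
  have hposM : M (pos B) := (qf_pos (Tm.var 0)).1 M k (fun _ => B) (fun _ => hB)
  have hinclM : M (incl B) := hWF.2.2.2.1.1 M k (fun _ => B) (fun _ => hB)
  have hpo := hWG.2.2.1 M B hC hne
  have hext := (hFI M (pos B) (incl B) G k hposM hinclM hpo hG).1
  refine ⟨_, bvfun (B := B) hWF k hprod φ qfF (tm_qfF hFH) (cons B fun _ => n) hv rfl, ?_, ?_⟩
  · intro i hi ξ hξ
    rw [app_resS (ZFSet.pair_mem_prod.2 ⟨hi, hξ⟩)]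
    refine (hWI M B k hB hC hne φ _ ?_).1
    intro j
    exact (tm_qfF hFH j).1 M k _ (hv.cons (k.mpair (k.trans _ ho _ hi) (k.trans _ hmu _ hξ)))
  · intro i hi ξ hξ
    rw [app_resS (ZFSet.pair_mem_prod.2 ⟨hi, hξ⟩)]
    have hin : In M fun j => qfF j M (cons (ZFSet.pair i ξ) (cons B fun _ => n)) := by
      intro j
      exact (tm_qfF hFH j).1 M k _ (hv.cons (k.mpair (k.trans _ ho _ hi) (k.trans _ hmu _ hξ)))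
    rw [(hWI M B k hB hC hne φ _ hin).2.2 G hG]
    rw [hφ (Ext M G) hext _ fun j => ⟨_, hin j, rfl⟩]
    show val G (ck (pos B) (snd (ZFSet.pair i ξ))) ∈
      app (val G n) (val G (ck (pos B) (fst (ZFSet.pair i ξ)))) ↔ _
    obtain ⟨-, hval, -⟩ := hFH
    rw [hval _ _ _ hG.1.sub hG.1.ne, hval _ _ _ hG.1.sub hG.1.ne, fst_pair, snd_pair]

/-- `b` decides that `d0` is a sequence of dense sets, or it decides a violation -/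
private def qfJ (b o B mu ρ d0 : V) : Prop :=
  (∀ i ∈ o, ∀ ξ ∈ mu, ∀ b1 ∈ B, b1 ≠ ∅ → b1 ⊆ b → ∃ b2 ∈ B, b2 ≠ ∅ ∧ b2 ⊆ b1 ∧ ∃ η ∈ mu,
    b2 ⊆ app ρ (ZFSet.pair η ξ) ∩ app d0 (ZFSet.pair i η)) ∨
  ∃ i ∈ o, ∃ ξ ∈ mu, ∀ η ∈ mu, b ∩ (app ρ (ZFSet.pair η ξ) ∩ app d0 (ZFSet.pair i η)) = ∅

/-- variables: b o B mu ρ d0 -/
private theorem qfJ_dfb : Dfb ZFm (fun _ v => qfJ (v 0) (v 1) (v 2) (v 3) (v 4) (v 5)) := by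
  have a1 : Dfb ZFm (fun _ v => v 1 ⊆ app (v 9) (ZFSet.pair (v 0) (v 3)) ∩
      app (v 10) (ZFSet.pair (v 4) (v 0))) :=
    Dfb.subset (Tm.var 1) (Tm.inter (Tm.app (Tm.var 9) (Tm.pair (Tm.var 0) (Tm.var 3)))
      (Tm.app (Tm.var 10) (Tm.pair (Tm.var 4) (Tm.var 0))))
  have a2 : Dfb ZFm (fun _ v => ∃ η ∈ v 7, v 0 ⊆ app (v 8) (ZFSet.pair η (v 2)) ∩
      app (v 9) (ZFSet.pair (v 3) η)) := Dfb.bex ktr_zfm (Tm.var 7) a1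
  have a3 : Dfb ZFm (fun _ v => v 0 ≠ ∅ ∧ v 0 ⊆ v 1 ∧ ∃ η ∈ v 7,
      v 0 ⊆ app (v 8) (ZFSet.pair η (v 2)) ∩ app (v 9) (ZFSet.pair (v 3) η)) :=
    (Dfb.eq (Tm.var 0) Tm.empty).not.and ((Dfb.subset (Tm.var 0) (Tm.var 1)).and a2)
  have a4 : Dfb ZFm (fun _ v => ∃ b2 ∈ v 5, b2 ≠ ∅ ∧ b2 ⊆ v 0 ∧ ∃ η ∈ v 6,
      b2 ⊆ app (v 7) (ZFSet.pair η (v 1)) ∩ app (v 8) (ZFSet.pair (v 2) η)) :=
    Dfb.bex ktr_zfm (Tm.var 5) a3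
  have a5 : Dfb ZFm (fun _ v => v 0 ≠ ∅ → v 0 ⊆ v 3 → ∃ b2 ∈ v 5, b2 ≠ ∅ ∧ b2 ⊆ v 0 ∧
      ∃ η ∈ v 6, b2 ⊆ app (v 7) (ZFSet.pair η (v 1)) ∩ app (v 8) (ZFSet.pair (v 2) η)) :=
    (Dfb.eq (Tm.var 0) Tm.empty).not.imp ((Dfb.subset (Tm.var 0) (Tm.var 3)).imp a4)
  have a6 : Dfb ZFm (fun _ v => ∀ b1 ∈ v 4, b1 ≠ ∅ → b1 ⊆ v 2 → ∃ b2 ∈ v 4, b2 ≠ ∅ ∧
      b2 ⊆ b1 ∧ ∃ η ∈ v 5, b2 ⊆ app (v 6) (ZFSet.pair η (v 0)) ∩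
        app (v 7) (ZFSet.pair (v 1) η)) :=
    Dfb.ball ktr_zfm (Tm.var 4) a5
  have a7 : Dfb ZFm (fun _ v => ∀ ξ ∈ v 4, ∀ b1 ∈ v 3, b1 ≠ ∅ → b1 ⊆ v 1 → ∃ b2 ∈ v 3,
      b2 ≠ ∅ ∧ b2 ⊆ b1 ∧ ∃ η ∈ v 4, b2 ⊆ app (v 5) (ZFSet.pair η ξ) ∩
        app (v 6) (ZFSet.pair (v 0) η)) :=
    Dfb.ball ktr_zfm (Tm.var 4) a6
  have a8 : Dfb ZFm (fun _ v => ∀ i ∈ v 1, ∀ ξ ∈ v 3, ∀ b1 ∈ v 2, b1 ≠ ∅ → b1 ⊆ v 0 →
      ∃ b2 ∈ v 2, b2 ≠ ∅ ∧ b2 ⊆ b1 ∧ ∃ η ∈ v 3, b2 ⊆ app (v 4) (ZFSet.pair η ξ) ∩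
        app (v 5) (ZFSet.pair i η)) :=
    Dfb.ball ktr_zfm (Tm.var 1) a7
  have c1 : Dfb ZFm (fun _ v => v 3 ∩ (app (v 7) (ZFSet.pair (v 0) (v 1)) ∩
      app (v 8) (ZFSet.pair (v 2) (v 0))) = ∅) :=
    Dfb.eq (Tm.inter (Tm.var 3) (Tm.inter (Tm.app (Tm.var 7) (Tm.pair (Tm.var 0) (Tm.var 1)))
      (Tm.app (Tm.var 8) (Tm.pair (Tm.var 2) (Tm.var 0))))) Tm.empty
  have c2 : Dfb ZFm (fun _ v => ∀ η ∈ v 5, v 2 ∩ (app (v 6) (ZFSet.pair η (v 0)) ∩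
      app (v 7) (ZFSet.pair (v 1) η)) = ∅) := Dfb.ball ktr_zfm (Tm.var 5) c1
  have c3 : Dfb ZFm (fun _ v => ∃ ξ ∈ v 4, ∀ η ∈ v 4, v 1 ∩ (app (v 5) (ZFSet.pair η ξ) ∩
      app (v 6) (ZFSet.pair (v 0) η)) = ∅) := Dfb.bex ktr_zfm (Tm.var 4) c2
  have c4 : Dfb ZFm (fun _ v => ∃ i ∈ v 1, ∃ ξ ∈ v 3, ∀ η ∈ v 3, v 0 ∩
      (app (v 4) (ZFSet.pair η ξ) ∩ app (v 5) (ZFSet.pair i η)) = ∅) :=
    Dfb.bex ktr_zfm (Tm.var 1) c3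
  exact a8.or c4

private theorem mem_pos {B b : V} : b ∈ pos B ↔ b ∈ B ∧ b ≠ ∅ := by
  unfold pos
  simp

private theorem mem_incl {B a b : V} : ZFSet.pair a b ∈ incl B ↔ a ∈ pos B ∧ b ∈ pos B ∧ a ⊆ b := by
  unfold incl
  rw [ZFSet.mem_sep, ZFSet.pair_mem_prod, fst_pair, snd_pair, and_assoc]

private theorem int_sub_l (x y : V) : x ∩ y ⊆ x := fun t ht => (ZFSet.mem_inter.1 ht).1

private theorem int_sub_r (x y : V) : x ∩ y ⊆ y := fun t ht => (ZFSet.mem_inter.1 ht).2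

/-- an element of the generic filter decides that `d0` is a sequence of dense sets -/
private theorem qf_b3 (hWH : T_WH) {M : V → Prop} {B G o mu ρ D d0 : V}
    (k : ZFm M) (hB : M B) (hC : CBAr M B) (hG : Gen M (pos B) (incl B) G)
    (ho : M o) (hmu : M mu) (hρ : M ρ) (hd0 : M d0) (hpre : BPre B mu ρ)
    (hd0B : ∀ i ∈ o, ∀ ξ ∈ mu, app d0 (ZFSet.pair i ξ) ∈ B)
    (hd0G : ∀ i ∈ o, ∀ ξ ∈ mu, (app d0 (ZFSet.pair i ξ) ∈ G ↔ ξ ∈ app D i))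
    (hdense : ∀ i ∈ o, IsDense mu (rt mu ρ G) (app D i)) :
    ∃ b3 ∈ G, ∀ i ∈ o, ∀ ξ ∈ mu, ∀ b1 ∈ B, b1 ≠ ∅ → b1 ⊆ b3 → ∃ b2 ∈ B, b2 ≠ ∅ ∧ b2 ⊆ b1 ∧
      ∃ η ∈ mu, b2 ⊆ app ρ (ZFSet.pair η ξ) ∩ app d0 (ZFSet.pair i η) := by
  obtain ⟨w1, w2, w3, -⟩ := hWH M B G k hB hC hG
  have hρB : ∀ ξ ∈ mu, ∀ η ∈ mu, app ρ (ZFSet.pair ξ η) ∈ B := fun ξ hξ η hη =>
    app_mem hpre.func (ZFSet.pair_mem_prod.2 ⟨hξ, hη⟩)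
  have hD0 : Dfb ZFm (fun _ t => qfJ (t 0) (t 2) (t 1) (t 3) (t 4) (t 5)) :=
    qfJ_dfb.rn fun i => [0, 2, 1, 3, 4, 5].getD i 0
  have hD := (Tm.sep hD0 (qf_pos (Tm.var 0))).1 M k
    (cons B (cons o (cons mu (cons ρ fun _ => d0))))
    (In.cons (In.cons (In.cons (In.cons (fun _ => hd0) hρ) hmu) ho) hB)
  have hD' : M ((pos B).sep fun b => qfJ b o B mu ρ d0) := hD
  have hden : IsDense (pos B) (incl B) ((pos B).sep fun b => qfJ b o B mu ρ d0) := by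
    refine ⟨ZFSet.sep_subset, fun b hb => ?_⟩
    have hbB := (mem_pos.1 hb).1
    by_cases hJ : ∀ i ∈ o, ∀ ξ ∈ mu, ∀ b1 ∈ B, b1 ≠ ∅ → b1 ⊆ b → ∃ b2 ∈ B, b2 ≠ ∅ ∧ b2 ⊆ b1 ∧
        ∃ η ∈ mu, b2 ⊆ app ρ (ZFSet.pair η ξ) ∩ app d0 (ZFSet.pair i η)
    · exact ⟨b, ZFSet.mem_sep.2 ⟨hb, Or.inl hJ⟩, mem_incl.2 ⟨hb, hb, fun _ h => h⟩⟩
    · push Not at hJ
      obtain ⟨i, hi, ξ, hξ, b1, hb1, hb10, hb1b, hJ⟩ := hJ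
      refine ⟨b1, ZFSet.mem_sep.2 ⟨mem_pos.2 ⟨hb1, hb10⟩, Or.inr ⟨i, hi, ξ, hξ, fun η hη => ?_⟩⟩,
        mem_incl.2 ⟨mem_pos.2 ⟨hb1, hb10⟩, hb, hb1b⟩⟩
      by_contra hne
      exact hJ _ (hC.inter _ hb1 _ (hC.inter _ (hρB η hη ξ hξ) _ (hd0B i hi η hη))) hne
        (int_sub_l _ _) η hη (int_sub_r _ _)
  obtain ⟨b3, hb3, hb3D⟩ := hG.2 _ hD' hden
  obtain ⟨-, hJ⟩ := ZFSet.mem_sep.1 hb3D
  rcases hJ with hJ | ⟨i, hi, ξ, hξ, hJ⟩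
  · exact ⟨b3, hb3, hJ⟩
  · exfalso
    obtain ⟨hsub, hd⟩ := hdense i hi
    obtain ⟨η, hη, hηξ⟩ := hd ξ hξ
    have hημ : η ∈ mu := hsub hη
    have h1 : app ρ (ZFSet.pair η ξ) ∈ G := by
      unfold rt at hηξ
      exact (ZFSet.mem_sep.1 hηξ).2
    have h2 : app d0 (ZFSet.pair i η) ∈ G := (hd0G i hi η hημ).2 hη
    exact (w2 _ (w1 _ hb3 _ (w1 _ h1 _ h2))).2 (hJ η hημ)

/-- the sets of which the least upper bounds are taken; variables: x q B b3 d0 -/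
private def qfR (t : ℕ → V) : Prop := t 0 ⊆ app (t 4) (t 1) ∨ t 0 ∩ t 3 = ∅

private theorem qfR_dfb : Dfb ZFm (fun _ t => qfR t) :=
  (Dfb.subset (Tm.var 0) (Tm.app (Tm.var 4) (Tm.var 1))).or
    (Dfb.eq (Tm.inter (Tm.var 0) (Tm.var 3)) Tm.empty)

theorem qf (hFH : T_FH) (hFI : T_FI) (hWF : T_WF) (hWG : T_WG) (hWH : T_WH) (hWI : T_WI) :
    T_QF := by
  intro M B G o mu ρ D k _ hB hC hne hG ho hmu hρ hpre hext hdense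
  obtain ⟨n, hn, hDn⟩ := hext
  obtain ⟨hsep, hdisj⟩ := hWG.2.2.2 M B hC
  obtain ⟨w1, w2, w3, -⟩ := hWH M B G k hB hC hG
  obtain ⟨d0, hd0, hd0B, hd0G⟩ := qf_d0 hFH hFI hWF hWG hWI k hB hC hne hG ho hmu hn
  rw [← hDn] at hd0G
  obtain ⟨b3, hb3, hb3J⟩ := qf_b3 hWH k hB hC hG ho hmu hρ hd0 hpre hd0B hd0G hdense
  have hb3B : b3 ∈ B := (w2 _ hb3).1
  have hb3M : M b3 := k.trans _ hB _ hb3B
  have hprod : M (ZFSet.prod o mu) :=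
    (Tm.prod (Tm.var 0) (Tm.var 1)).1 M k (cons o fun _ => mu) (In.cons (fun _ => hmu) ho)
  obtain ⟨d, hd, hdf, hdl⟩ := lubfun hWF k hC hB hprod qfR_dfb (cons B (cons b3 fun _ => d0))
    (In.cons (In.cons (fun _ => hd0) hb3M) hB) rfl
  obtain ⟨S, hS⟩ : ∃ S : V → V → V, S = fun i ξ => B.sep fun x =>
      x ⊆ app d0 (ZFSet.pair i ξ) ∨ x ∩ b3 = ∅ := ⟨_, rfl⟩
  have hl : ∀ i ∈ o, ∀ ξ ∈ mu, LubB B (S i ξ) (app d (ZFSet.pair i ξ)) := by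
    intro i hi ξ hξ
    rw [hS]
    exact hdl _ (ZFSet.pair_mem_prod.2 ⟨hi, hξ⟩)
  have fa : ∀ i ∈ o, ∀ ξ ∈ mu, app d0 (ZFSet.pair i ξ) ⊆ app d (ZFSet.pair i ξ) := by
    intro i hi ξ hξ
    refine (hl i hi ξ hξ).2.1 _ ?_
    rw [hS]
    exact ZFSet.mem_sep.2 ⟨hd0B i hi ξ hξ, Or.inl fun _ h => h⟩
  have fa' : ∀ i ∈ o, ∀ ξ ∈ mu, ∀ x ∈ B, x ∩ b3 = ∅ → x ⊆ app d (ZFSet.pair i ξ) := by
    intro i hi ξ hξ x hx h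
    refine (hl i hi ξ hξ).2.1 _ ?_
    rw [hS]
    exact ZFSet.mem_sep.2 ⟨hx, Or.inr h⟩
  have fb : ∀ i ∈ o, ∀ ξ ∈ mu, app d (ZFSet.pair i ξ) ∩ b3 ⊆ app d0 (ZFSet.pair i ξ) := by
    intro i hi ξ hξ
    by_contra hcon
    have hL := hl i hi ξ hξ
    obtain ⟨z, hz, hz0, hzb, hz2⟩ := hsep _ (hC.inter _ hL.1 _ hb3B) _ (hd0B i hi ξ hξ) hcon
    have h1 : app d (ZFSet.pair i ξ) ∩ z = ∅ := by
      refine hdisj (S i ξ) _ z hL (by rw [hS]; exact ZFSet.sep_subset) hz fun s hs => ?_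
      rw [hS] at hs
      obtain ⟨-, hs⟩ := ZFSet.mem_sep.1 hs
      refine (ZFSet.eq_empty _).2 fun t ht => ?_
      obtain ⟨ht1, ht2⟩ := ZFSet.mem_inter.1 ht
      rcases hs with hs | hs
      · exact (ZFSet.eq_empty _).1 hz2 t (ZFSet.mem_inter.2 ⟨ht2, hs ht1⟩)
      · exact (ZFSet.eq_empty _).1 hs t (ZFSet.mem_inter.2 ⟨ht1, int_sub_r _ _ (hzb ht2)⟩)
    refine hz0 ((ZFSet.eq_empty _).2 fun t ht => ?_)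
    exact (ZFSet.eq_empty _).1 h1 t (ZFSet.mem_inter.2 ⟨int_sub_l _ _ (hzb ht), ht⟩)
  refine ⟨d, hd, ⟨hdf, ?_⟩, ?_⟩
  · intro i hi b hb hb0 ξ hξ
    by_cases h : b ∩ b3 = ∅
    · exact ⟨b, hb, hb0, fun _ h => h, ξ, hξ, fun t ht => ZFSet.mem_inter.2
        ⟨hpre.refl ξ hξ b hb ht, fa' i hi ξ hξ b hb h ht⟩⟩
    · obtain ⟨b2, hb2, hb20, hb2b, η, hη, hb2η⟩ :=
        hb3J i hi ξ hξ _ (hC.inter _ hb _ hb3B) h (int_sub_r _ _)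
      refine ⟨b2, hb2, hb20, fun t ht => int_sub_l _ _ (hb2b ht), η, hη, fun t ht => ?_⟩
      exact ZFSet.mem_inter.2 ⟨int_sub_l _ _ (hb2η ht), fa i hi η hη (int_sub_r _ _ (hb2η ht))⟩
  · intro i hi ξ hξ
    rw [← hd0G i hi ξ hξ]
    constructor
    · intro h
      exact w3 _ h _ (hl i hi ξ hξ).1 (fa i hi ξ hξ)
    · intro h
      exact w3 _ (w1 _ h _ hb3) _ (hd0B i hi ξ hξ) (fb i hi ξ hξ)

end SF.H67
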