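import Pool.Agent.H9.SF.QDefs

/-! QH: definability for two-step forcing (helper67) -/

set_option linter.unusedVariables false

open Ordinal Cardinal Order Set
open scoped ZFSet

namespace SF.H67

open SF

private theorem qh_pos {f : (V → Prop) → (ℕ → V) → V} (hf : Tm ZFm f) :
    Tm ZFm (fun M v => pos (f M v)) :=
  Tm.diff hf (Tm.sing Tm.empty)

private theorem qh_qS : Tm ZFm (fun _ v => qS (v 0) (v 1)) :=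
  Tm.prod (qh_pos (Tm.var 0)) (Tm.var 1)

private theorem qh_ne {f : (V → Prop) → (ℕ → V) → V} (hf : Tm ZFm f) :
    Dfb ZFm (fun M v => f M v ≠ ∅) := (Dfb.eq hf Tm.empty).not

private theorem qh_qR : Tm ZFm (fun _ v => qR (v 0) (v 1) (v 2)) := by
  have hR : Dfb ZFm (fun _ v => fst (fst (v 0)) ⊆ fst (snd (v 0)) ∧
      fst (fst (v 0)) ⊆ app (v 3) (ZFSet.pair (snd (fst (v 0))) (snd (snd (v 0))))) :=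
    (Dfb.subset (Tm.fst (Tm.fst (Tm.var 0))) (Tm.fst (Tm.snd (Tm.var 0)))).and
      (Dfb.subset (Tm.fst (Tm.fst (Tm.var 0)))
        (Tm.app (Tm.var 3) (Tm.pair (Tm.snd (Tm.fst (Tm.var 0))) (Tm.snd (Tm.snd (Tm.var 0))))))
  exact Tm.sep hR (Tm.prod qh_qS qh_qS)

private theorem qh_kS : Tm ZFm (fun _ v => kS (v 0) (v 1) (v 2)) := by
  have hR : Dfb ZFm (fun _ v => fst (v 0) ⊆ v 3) := Dfb.subset (Tm.fst (Tm.var 0)) (Tm.var 3)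
  exact Tm.sep hR qh_qS

private theorem qh_BPre : Dfb ZFm (fun _ v => BPre (v 0) (v 1) (v 2)) := by
  have h1 : Dfb ZFm (fun _ v => ZFSet.IsFunc (ZFSet.prod (v 1) (v 1)) (v 0) (v 2)) :=
    Dfb.isFunc (Tm.prod (Tm.var 1) (Tm.var 1)) (Tm.var 0) (Tm.var 2)
  have a1 : Dfb ZFm (fun _ v => v 0 ⊆ app (v 4) (ZFSet.pair (v 1) (v 1))) :=
    Dfb.subset (Tm.var 0) (Tm.app (Tm.var 4) (Tm.pair (Tm.var 1) (Tm.var 1)))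
  have a2 : Dfb ZFm (fun _ v => ∀ b ∈ v 1, b ⊆ app (v 3) (ZFSet.pair (v 0) (v 0))) :=
    Dfb.ball ktr_zfm (Tm.var 1) a1
  have a3 : Dfb ZFm (fun _ v => ∀ ξ ∈ v 1, ∀ b ∈ v 0, b ⊆ app (v 2) (ZFSet.pair ξ ξ)) :=
    Dfb.ball ktr_zfm (Tm.var 1) a2
  have b1 : Dfb ZFm (fun _ v => app (v 5) (ZFSet.pair (v 2) (v 1)) ∩
      app (v 5) (ZFSet.pair (v 1) (v 0)) ⊆ app (v 5) (ZFSet.pair (v 2) (v 0))) :=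
    Dfb.subset (Tm.inter (Tm.app (Tm.var 5) (Tm.pair (Tm.var 2) (Tm.var 1)))
      (Tm.app (Tm.var 5) (Tm.pair (Tm.var 1) (Tm.var 0))))
      (Tm.app (Tm.var 5) (Tm.pair (Tm.var 2) (Tm.var 0)))
  have b2 : Dfb ZFm (fun _ v => ∀ ζ ∈ v 3, app (v 4) (ZFSet.pair (v 1) (v 0)) ∩
      app (v 4) (ZFSet.pair (v 0) ζ) ⊆ app (v 4) (ZFSet.pair (v 1) ζ)) :=
    Dfb.ball ktr_zfm (Tm.var 3) b1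
  have b3 : Dfb ZFm (fun _ v => ∀ η ∈ v 2, ∀ ζ ∈ v 2, app (v 3) (ZFSet.pair (v 0) η) ∩
      app (v 3) (ZFSet.pair η ζ) ⊆ app (v 3) (ZFSet.pair (v 0) ζ)) :=
    Dfb.ball ktr_zfm (Tm.var 2) b2
  have b4 : Dfb ZFm (fun _ v => ∀ ξ ∈ v 1, ∀ η ∈ v 1, ∀ ζ ∈ v 1, app (v 2) (ZFSet.pair ξ η) ∩
      app (v 2) (ZFSet.pair η ζ) ⊆ app (v 2) (ZFSet.pair ξ ζ)) :=
    Dfb.ball ktr_zfm (Tm.var 1) b3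
  refine ((Dfb.ne (Tm.var 1)).and (h1.and (a3.and b4))).congr fun M k v hv => ?_
  exact ⟨fun ⟨h1, h2, h3, h4⟩ => ⟨h1, h2, h3, h4⟩, fun h => ⟨h.ne, h.func, h.refl, h.trans⟩⟩

private theorem qh_DnsS : Dfb ZFm (fun _ v => DnsS (v 0) (v 1) (v 2) (v 3) (v 4)) := by
  have h1 : Dfb ZFm (fun _ v => ZFSet.IsFunc (ZFSet.prod (v 0) (v 2)) (v 1) (v 4)) :=
    Dfb.isFunc (Tm.prod (Tm.var 0) (Tm.var 2)) (Tm.var 1) (Tm.var 4)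
  -- variables: eta b1 xi b i o B mu rho d
  have a1 : Dfb ZFm (fun _ v => v 1 ⊆ app (v 8) (ZFSet.pair (v 0) (v 2)) ∩
      app (v 9) (ZFSet.pair (v 4) (v 0))) :=
    Dfb.subset (Tm.var 1) (Tm.inter (Tm.app (Tm.var 8) (Tm.pair (Tm.var 0) (Tm.var 2)))
      (Tm.app (Tm.var 9) (Tm.pair (Tm.var 4) (Tm.var 0))))
  have a2 : Dfb ZFm (fun _ v => ∃ η ∈ v 6, v 0 ⊆ app (v 7) (ZFSet.pair η (v 1)) ∩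
      app (v 8) (ZFSet.pair (v 3) η)) := Dfb.bex ktr_zfm (Tm.var 6) a1
  have a3 : Dfb ZFm (fun _ v => v 0 ≠ ∅ ∧ v 0 ⊆ v 2 ∧ ∃ η ∈ v 6,
      v 0 ⊆ app (v 7) (ZFSet.pair η (v 1)) ∩ app (v 8) (ZFSet.pair (v 3) η)) :=
    (qh_ne (Tm.var 0)).and ((Dfb.subset (Tm.var 0) (Tm.var 2)).and a2)
  have a4 : Dfb ZFm (fun _ v => ∃ b1 ∈ v 4, b1 ≠ ∅ ∧ b1 ⊆ v 1 ∧ ∃ η ∈ v 5,
      b1 ⊆ app (v 6) (ZFSet.pair η (v 0)) ∩ app (v 7) (ZFSet.pair (v 2) η)) :=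
    Dfb.bex ktr_zfm (Tm.var 4) a3
  have a5 : Dfb ZFm (fun _ v => ∀ ξ ∈ v 4, ∃ b1 ∈ v 3, b1 ≠ ∅ ∧ b1 ⊆ v 0 ∧ ∃ η ∈ v 4,
      b1 ⊆ app (v 5) (ZFSet.pair η ξ) ∩ app (v 6) (ZFSet.pair (v 1) η)) :=
    Dfb.ball ktr_zfm (Tm.var 4) a4
  have a6 : Dfb ZFm (fun _ v => v 0 ≠ ∅ → ∀ ξ ∈ v 4, ∃ b1 ∈ v 3, b1 ≠ ∅ ∧ b1 ⊆ v 0 ∧ ∃ η ∈ v 4,
      b1 ⊆ app (v 5) (ZFSet.pair η ξ) ∩ app (v 6) (ZFSet.pair (v 1) η)) :=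
    (qh_ne (Tm.var 0)).imp a5
  have a7 : Dfb ZFm (fun _ v => ∀ b ∈ v 2, b ≠ ∅ → ∀ ξ ∈ v 3, ∃ b1 ∈ v 2, b1 ≠ ∅ ∧ b1 ⊆ b ∧
      ∃ η ∈ v 3, b1 ⊆ app (v 4) (ZFSet.pair η ξ) ∩ app (v 5) (ZFSet.pair (v 0) η)) :=
    Dfb.ball ktr_zfm (Tm.var 2) a6
  have a8 : Dfb ZFm (fun _ v => ∀ i ∈ v 0, ∀ b ∈ v 1, b ≠ ∅ → ∀ ξ ∈ v 2, ∃ b1 ∈ v 1, b1 ≠ ∅ ∧
      b1 ⊆ b ∧ ∃ η ∈ v 2, b1 ⊆ app (v 3) (ZFSet.pair η ξ) ∩ app (v 4) (ZFSet.pair i η)) :=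
    Dfb.ball ktr_zfm (Tm.var 0) a7
  exact h1.and a8

/-- variables: o B mu rho d b2 s m p -/
private theorem qh_sup : Dfb ZFm (fun _ v => ∀ n ∈ v 0, ∀ x ∈ v 1, x ≠ ∅ → x ⊆ v 5 →
    ∃ ξ ∈ v 2, x ∩ app (v 6) (ZFSet.pair n ξ) ≠ ∅) := by
  have h1 : Dfb ZFm (fun _ v => v 1 ∩ app (v 9) (ZFSet.pair (v 2) (v 0)) ≠ ∅) :=
    qh_ne (Tm.inter (Tm.var 1) (Tm.app (Tm.var 9) (Tm.pair (Tm.var 2) (Tm.var 0))))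
  have h2 : Dfb ZFm (fun _ v => ∃ ξ ∈ v 4, v 0 ∩ app (v 8) (ZFSet.pair (v 1) ξ) ≠ ∅) :=
    Dfb.bex ktr_zfm (Tm.var 4) h1
  have h3 : Dfb ZFm (fun _ v => v 0 ≠ ∅ → v 0 ⊆ v 7 →
      ∃ ξ ∈ v 4, v 0 ∩ app (v 8) (ZFSet.pair (v 1) ξ) ≠ ∅) :=
    (qh_ne (Tm.var 0)).imp ((Dfb.subset (Tm.var 0) (Tm.var 7)).imp h2)
  have h4 : Dfb ZFm (fun _ v => ∀ x ∈ v 2, x ≠ ∅ → x ⊆ v 6 →
      ∃ ξ ∈ v 3, x ∩ app (v 7) (ZFSet.pair (v 0) ξ) ≠ ∅) := Dfb.ball ktr_zfm (Tm.var 2) h3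
  exact Dfb.ball ktr_zfm (Tm.var 0) h4

private theorem qh_dis : Dfb ZFm (fun _ v => ∀ n ∈ v 0, ∀ ξ ∈ v 2, ∀ η ∈ v 2, ξ ≠ η →
    app (v 6) (ZFSet.pair n ξ) ∩ app (v 6) (ZFSet.pair n η) = ∅) := by
  have h1 : Dfb ZFm (fun _ v => v 1 ≠ v 0 →
      app (v 9) (ZFSet.pair (v 2) (v 1)) ∩ app (v 9) (ZFSet.pair (v 2) (v 0)) = ∅) :=
    (Dfb.eq (Tm.var 1) (Tm.var 0)).not.imp
      (Dfb.eq (Tm.inter (Tm.app (Tm.var 9) (Tm.pair (Tm.var 2) (Tm.var 1)))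
        (Tm.app (Tm.var 9) (Tm.pair (Tm.var 2) (Tm.var 0)))) Tm.empty)
  have h2 : Dfb ZFm (fun _ v => ∀ η ∈ v 4, v 0 ≠ η →
      app (v 8) (ZFSet.pair (v 1) (v 0)) ∩ app (v 8) (ZFSet.pair (v 1) η) = ∅) :=
    Dfb.ball ktr_zfm (Tm.var 4) h1
  have h3 : Dfb ZFm (fun _ v => ∀ ξ ∈ v 3, ∀ η ∈ v 3, ξ ≠ η →
      app (v 7) (ZFSet.pair (v 0) ξ) ∩ app (v 7) (ZFSet.pair (v 0) η) = ∅) :=
    Dfb.ball ktr_zfm (Tm.var 3) h2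
  exact Dfb.ball ktr_zfm (Tm.var 0) h3

private theorem qh_mts : Dfb ZFm (fun _ v => ∀ i ∈ v 0, ∀ ξ ∈ v 2,
    app (v 6) (ZFSet.pair (app (v 7) i) ξ) ⊆ app (v 4) (ZFSet.pair i ξ)) := by
  have h1 : Dfb ZFm (fun _ v =>
      app (v 8) (ZFSet.pair (app (v 9) (v 1)) (v 0)) ⊆ app (v 6) (ZFSet.pair (v 1) (v 0))) :=
    Dfb.subset (Tm.app (Tm.var 8) (Tm.pair (Tm.app (Tm.var 9) (Tm.var 1)) (Tm.var 0)))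
      (Tm.app (Tm.var 6) (Tm.pair (Tm.var 1) (Tm.var 0)))
  have h2 : Dfb ZFm (fun _ v => ∀ ξ ∈ v 3,
      app (v 7) (ZFSet.pair (app (v 8) (v 0)) ξ) ⊆ app (v 5) (ZFSet.pair (v 0) ξ)) :=
    Dfb.ball ktr_zfm (Tm.var 3) h1
  exact Dfb.ball ktr_zfm (Tm.var 0) h2

private theorem qh_dir : Dfb ZFm (fun _ v => ∀ n ∈ v 0, ∀ l ∈ v 0, ∀ ζ ∈ v 2, ∀ ξ ∈ v 2,
    app (v 6) (ZFSet.pair (app (v 8) (ZFSet.pair n l)) ζ) ∩ app (v 6) (ZFSet.pair n ξ) ⊆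
        app (v 3) (ZFSet.pair ζ ξ) ∧
      app (v 6) (ZFSet.pair (app (v 8) (ZFSet.pair n l)) ζ) ∩ app (v 6) (ZFSet.pair l ξ) ⊆
        app (v 3) (ZFSet.pair ζ ξ)) := by
  -- variables: xi zeta l n ; o = 4, rho = 7, s = 10, p = 12
  have h1 : Dfb ZFm (fun _ v =>
      app (v 10) (ZFSet.pair (app (v 12) (ZFSet.pair (v 3) (v 2))) (v 1)) ∩
        app (v 10) (ZFSet.pair (v 3) (v 0)) ⊆ app (v 7) (ZFSet.pair (v 1) (v 0)) ∧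
      app (v 10) (ZFSet.pair (app (v 12) (ZFSet.pair (v 3) (v 2))) (v 1)) ∩
        app (v 10) (ZFSet.pair (v 2) (v 0)) ⊆ app (v 7) (ZFSet.pair (v 1) (v 0))) :=
    (Dfb.subset (Tm.inter (Tm.app (Tm.var 10)
        (Tm.pair (Tm.app (Tm.var 12) (Tm.pair (Tm.var 3) (Tm.var 2))) (Tm.var 1)))
        (Tm.app (Tm.var 10) (Tm.pair (Tm.var 3) (Tm.var 0))))
      (Tm.app (Tm.var 7) (Tm.pair (Tm.var 1) (Tm.var 0)))).and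
    (Dfb.subset (Tm.inter (Tm.app (Tm.var 10)
        (Tm.pair (Tm.app (Tm.var 12) (Tm.pair (Tm.var 3) (Tm.var 2))) (Tm.var 1)))
        (Tm.app (Tm.var 10) (Tm.pair (Tm.var 2) (Tm.var 0))))
      (Tm.app (Tm.var 7) (Tm.pair (Tm.var 1) (Tm.var 0))))
  have h2 : Dfb ZFm (fun _ v => ∀ ξ ∈ v 5,
      app (v 9) (ZFSet.pair (app (v 11) (ZFSet.pair (v 2) (v 1))) (v 0)) ∩
        app (v 9) (ZFSet.pair (v 2) ξ) ⊆ app (v 6) (ZFSet.pair (v 0) ξ) ∧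
      app (v 9) (ZFSet.pair (app (v 11) (ZFSet.pair (v 2) (v 1))) (v 0)) ∩
        app (v 9) (ZFSet.pair (v 1) ξ) ⊆ app (v 6) (ZFSet.pair (v 0) ξ)) :=
    Dfb.ball ktr_zfm (Tm.var 5) h1
  have h3 : Dfb ZFm (fun _ v => ∀ ζ ∈ v 4, ∀ ξ ∈ v 4,
      app (v 8) (ZFSet.pair (app (v 10) (ZFSet.pair (v 1) (v 0))) ζ) ∩
        app (v 8) (ZFSet.pair (v 1) ξ) ⊆ app (v 5) (ZFSet.pair ζ ξ) ∧
      app (v 8) (ZFSet.pair (app (v 10) (ZFSet.pair (v 1) (v 0))) ζ) ∩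
        app (v 8) (ZFSet.pair (v 0) ξ) ⊆ app (v 5) (ZFSet.pair ζ ξ)) :=
    Dfb.ball ktr_zfm (Tm.var 4) h2
  have h4 : Dfb ZFm (fun _ v => ∀ l ∈ v 1, ∀ ζ ∈ v 3, ∀ ξ ∈ v 3,
      app (v 7) (ZFSet.pair (app (v 9) (ZFSet.pair (v 0) l)) ζ) ∩
        app (v 7) (ZFSet.pair (v 0) ξ) ⊆ app (v 4) (ZFSet.pair ζ ξ) ∧
      app (v 7) (ZFSet.pair (app (v 9) (ZFSet.pair (v 0) l)) ζ) ∩
        app (v 7) (ZFSet.pair l ξ) ⊆ app (v 4) (ZFSet.pair ζ ξ)) :=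
    Dfb.ball ktr_zfm (Tm.var 1) h3
  exact Dfb.ball ktr_zfm (Tm.var 0) h4

private theorem qh_DirS : Dfb ZFm (fun _ v =>
    DirS (v 0) (v 1) (v 2) (v 3) (v 4) (v 5) (v 6) (v 7) (v 8)) := by
  have f1 : Dfb ZFm (fun _ v => ZFSet.IsFunc (ZFSet.prod (v 0) (v 2)) (v 1) (v 6)) :=
    Dfb.isFunc (Tm.prod (Tm.var 0) (Tm.var 2)) (Tm.var 1) (Tm.var 6)
  have f2 : Dfb ZFm (fun _ v => ZFSet.IsFunc (v 0) (v 0) (v 7)) :=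
    Dfb.isFunc (Tm.var 0) (Tm.var 0) (Tm.var 7)
  have f3 : Dfb ZFm (fun _ v => ZFSet.IsFunc (ZFSet.prod (v 0) (v 0)) (v 0) (v 8)) :=
    Dfb.isFunc (Tm.prod (Tm.var 0) (Tm.var 0)) (Tm.var 0) (Tm.var 8)
  refine (f1.and (f2.and (f3.and (qh_sup.and (qh_dis.and (qh_mts.and qh_dir)))))).congr
    fun M k v hv => ?_
  exact ⟨fun ⟨h1, h2, h3, h4, h5, h6, h7⟩ => ⟨h1, h2, h3, h4, h5, h6, h7⟩,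
    fun h => ⟨h.fs, h.fm, h.fp, h.sup, h.dis, h.mts, h.dir⟩⟩

private theorem qh_FA2s : Dfb ZFm (fun M v => FA2s M (v 0) (v 1) (v 2) (v 3) (v 4)) := by
  have h1 : Dfb ZFm (fun _ v =>
      DirS (v 6) (v 7) (v 8) (v 9) (v 5) (v 3) (v 2) (v 1) (v 0)) :=
    qh_DirS.rn fun i => [6, 7, 8, 9, 5, 3, 2, 1, 0].getD i 0
  have h2 : Dfb ZFm (fun M v => ∃ p, M p ∧
      DirS (v 5) (v 6) (v 7) (v 8) (v 4) (v 2) (v 1) (v 0) p) := Dfb.ex h1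
  have h3 : Dfb ZFm (fun M v => ∃ m, M m ∧ ∃ p, M p ∧
      DirS (v 4) (v 5) (v 6) (v 7) (v 3) (v 1) (v 0) m p) := Dfb.ex h2
  have h4 : Dfb ZFm (fun M v => ∃ s, M s ∧ ∃ m, M m ∧ ∃ p, M p ∧
      DirS (v 3) (v 4) (v 5) (v 6) (v 2) (v 0) s m p) := Dfb.ex h3
  have h5 : Dfb ZFm (fun M v => v 0 ≠ ∅ ∧ v 0 ⊆ v 1 ∧ ∃ s, M s ∧ ∃ m, M m ∧ ∃ p, M p ∧
      DirS (v 3) (v 4) (v 5) (v 6) (v 2) (v 0) s m p) :=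
    (qh_ne (Tm.var 0)).and ((Dfb.subset (Tm.var 0) (Tm.var 1)).and h4)
  have h6 : Dfb ZFm (fun M v => ∃ b2 ∈ v 3, b2 ≠ ∅ ∧ b2 ⊆ v 0 ∧ ∃ s, M s ∧ ∃ m, M m ∧
      ∃ p, M p ∧ DirS (v 2) (v 3) (v 4) (v 5) (v 1) b2 s m p) :=
    Dfb.bex ktr_zfm (Tm.var 3) h5
  have h7 : Dfb ZFm (fun M v => v 0 ≠ ∅ → v 0 ⊆ v 6 → ∃ b2 ∈ v 3, b2 ≠ ∅ ∧ b2 ⊆ v 0 ∧
      ∃ s, M s ∧ ∃ m, M m ∧ ∃ p, M p ∧ DirS (v 2) (v 3) (v 4) (v 5) (v 1) b2 s m p) :=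
    (qh_ne (Tm.var 0)).imp ((Dfb.subset (Tm.var 0) (Tm.var 6)).imp h6)
  have h8 : Dfb ZFm (fun M v => ∀ b ∈ v 2, b ≠ ∅ → b ⊆ v 5 → ∃ b2 ∈ v 2, b2 ≠ ∅ ∧ b2 ⊆ b ∧
      ∃ s, M s ∧ ∃ m, M m ∧ ∃ p, M p ∧ DirS (v 1) (v 2) (v 3) (v 4) (v 0) b2 s m p) :=
    Dfb.ball ktr_zfm (Tm.var 2) h7
  have h0 : Dfb ZFm (fun _ v => DnsS (v 1) (v 2) (v 3) (v 4) (v 0)) :=
    qh_DnsS.rn fun i => [1, 2, 3, 4, 0].getD i 0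
  have h9 : Dfb ZFm (fun M v => DnsS (v 1) (v 2) (v 3) (v 4) (v 0) →
      ∀ b ∈ v 2, b ≠ ∅ → b ⊆ v 5 → ∃ b2 ∈ v 2, b2 ≠ ∅ ∧ b2 ⊆ b ∧
      ∃ s, M s ∧ ∃ m, M m ∧ ∃ p, M p ∧ DirS (v 1) (v 2) (v 3) (v 4) (v 0) b2 s m p) :=
    h0.imp h8
  have h10 : Dfb ZFm (fun M v => ∀ d, M d → (DnsS (v 0) (v 1) (v 2) (v 3) d →
      ∀ b ∈ v 1, b ≠ ∅ → b ⊆ v 4 → ∃ b2 ∈ v 1, b2 ≠ ∅ ∧ b2 ⊆ b ∧
      ∃ s, M s ∧ ∃ m, M m ∧ ∃ p, M p ∧ DirS (v 0) (v 1) (v 2) (v 3) d b2 s m p)) :=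
    Dfb.all h9
  exact h10

theorem qh : T_QH := ⟨qh_qS, qh_qR, qh_BPre, qh_kS, qh_FA2s⟩

end SF.H67
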