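import Pool.Agent.H9.SF.QDefs

/-! Common lemmas for QE and QF (helper67): functions whose values are Boolean values or least
upper bounds of definable sets. -/

set_option linter.unusedVariables false

open Ordinal Cardinal Order Set
open scoped ZFSet

namespace SF.H67

open SF

theorem q_in_cons {M : V → Prop} {x : V} {v : ℕ → V} (hx : M x) (hv : In M v) : In M (cons x v) :=
  hv.cons hx

/-- the arguments for the relation of `lubfun` -/
noncomputable def lubArg : ℕ → (V → Prop) → (ℕ → V) → V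
  | 0 => fun _ t => t 0
  | 1 => fun _ t => fst (t 1)
  | i + 2 => fun _ t => t (i + 3)

theorem tm_lubArg : ∀ i, Tm ZFm (lubArg i)
  | 0 => Tm.var 0
  | 1 => Tm.fst (Tm.var 1)
  | i + 2 => Tm.var (i + 3)

theorem lubArg_eq (M : V → Prop) (x z a : V) (v : ℕ → V) :
    (fun i => lubArg i M (cons x (cons z (cons a v)))) = cons x (cons (fst z) v) := by
  funext i
  match i with
  | 0 => rfl
  | 1 => rfl
  | i + 2 => rfl

theorem lub_unique {B S b b' : V} (h : LubB B S b) (h' : LubB B S b') : b = b' :=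
  subset_antisymm (h.2.2 b' h'.1 h'.2.1) (h'.2.2 b h.1 h.2.1)

/-- a function whose values are least upper bounds of definable subsets of the algebra -/
theorem lubfun (hWF : T_WF) {M : V → Prop} (k : ZFm M) {B a : V} (hC : CBAr M B) (hB : M B)
    (ha : M a) {R : (V → Prop) → (ℕ → V) → Prop} (hR : Dfb ZFm R) (v : ℕ → V) (hv : In M v)
    (hv0 : v 0 = B) :
    ∃ f, M f ∧ ZFSet.IsFunc a B f ∧
      ∀ q ∈ a, LubB B (B.sep fun x => R M (cons x (cons q v))) (app f q) := by
  have hS : Dfb ZFm (fun M t => R M (fun i => lubArg i M t)) := hR.comp lubArg tm_lubArg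
  have hS2 : Tm ZFm (fun M u => (u 2).sep fun x => R M (fun i => lubArg i M (cons x u))) :=
    Tm.sep hS (Tm.var 2)
  have hL : Dfb ZFm (fun M u => LubB (u 2)
      ((u 2).sep fun x => R M (fun i => lubArg i M (cons x u))) (snd (u 0))) :=
    Dfb.at3 (P := fun _ x y z => LubB x y z) hWF.1 (Tm.var 2) hS2 (Tm.snd (Tm.var 0))
  have hf := (Tm.sep hL (Tm.prod (Tm.var 0) (Tm.var 1))).1 M k (cons a v) (hv.cons ha)
  obtain ⟨f, hfd⟩ : ∃ f, f = (ZFSet.prod (cons a v 0) (cons a v 1)).sep fun z =>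
    LubB (cons z (cons a v) 2) ((cons z (cons a v) 2).sep fun x =>
      R M (fun i => lubArg i M (cons x (cons z (cons a v))))) (snd (cons z (cons a v) 0)) :=
    ⟨_, rfl⟩
  have hmem : ∀ q b, ZFSet.pair q b ∈ f ↔ q ∈ a ∧ b ∈ B ∧
      LubB B (B.sep fun x => R M (cons x (cons q v))) b := by
    intro q b
    rw [hfd, ZFSet.mem_sep]
    simp only [lubArg_eq, cons_zero, fst_pair, snd_pair]
    show ZFSet.pair q b ∈ ZFSet.prod a (v 0) ∧ LubB (v 0) ((v 0).sep _) b ↔ _
    rw [hv0, ZFSet.pair_mem_prod]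
    tauto
  have hex : ∀ q ∈ a, ∃ b, LubB B (B.sep fun x => R M (cons x (cons q v))) b := by
    intro q hq
    refine hC.lub _ ?_ ZFSet.sep_subset
    have h1 := (Tm.sep hR (Tm.var 1)).1 M k (cons q v) (hv.cons (k.trans _ ha q hq))
    have h2 : M ((v 0).sep fun x => R M (cons x (cons q v))) := h1
    rwa [hv0] at h2
  have hfun : ZFSet.IsFunc a B f := by
    constructor
    · intro z hz
      rw [hfd] at hz
      have h1 := (ZFSet.mem_sep.1 hz).1
      have h2 : z ∈ ZFSet.prod a (v 0) := h1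
      rwa [hv0] at h2
    · intro q hq
      obtain ⟨b, hb⟩ := hex q hq
      refine ⟨b, (hmem q b).2 ⟨hq, hb.1, hb⟩, fun b' hb' => ?_⟩
      exact lub_unique ((hmem q b').1 hb').2.2 hb
  refine ⟨f, by rw [hfd]; exact hf, hfun, fun q hq => ?_⟩
  exact ((hmem q (app f q)).1 (pair_app_mem hfun hq)).2.2

/-- the shift of the variables in `bvfun` -/
def bvs : ℕ → ℕ
  | 0 => 0
  | j + 1 => j + 2

/-- the arguments of the Boolean value in `bvfun` -/
def bvArg (F : ℕ → (V → Prop) → (ℕ → V) → V) : ℕ → (V → Prop) → (ℕ → V) → V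
  | 0 => fun _ t => t 2
  | i + 1 => fun M t => F i M fun j => t (bvs j)

/-- a function whose values are Boolean values -/
theorem bvfun (hWF : T_WF) {M : V → Prop} (k : ZFm M) {B a : V} (ha : M a) (φ : Fml)
    (F : ℕ → (V → Prop) → (ℕ → V) → V) (hF : ∀ i, Tm ZFm (F i)) (v : ℕ → V) (hv : In M v)
    (hv0 : v 0 = B) : M (resS a fun q => bv M B φ fun i => F i M (cons q v)) := by
  have hG : ∀ i, Tm ZFm (bvArg F i) := by
    intro i
    cases i with
    | zero => exact Tm.var 2
    | succ i => exact (hF i).rn bvs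
  have h1 := (Tm.resS (Tm.var 0) ((hWF.2.2.2.2 φ).comp (bvArg F) hG)).1 M k (cons a v)
    (hv.cons ha)
  have e : ∀ q : V, (fun j => cons q (cons a v) (bvs j)) = cons q v := by
    intro q
    funext j
    cases j <;> rfl
  have h2 : M (resS a fun q => bv M (v 0) φ fun i => F i M fun j => cons q (cons a v) (bvs j)) :=
    h1
  simp only [e, hv0] at h2
  exact h2

end SF.H67
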